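import Pool.Agent.Q325.CI.Pol

/-!
# Constrained matrix invertibility over the reals

Given two square zero patterns of the same size, it is `∃ℝ`-hard to decide whether there are real
matrices `A` and `B` that fit the patterns and satisfy `A * B = 1`.

Idea: vectors `z i` of `ℝ ^ 3` with prescribed zero coordinates and one prescribed nonzero
coordinate, some pairs of which have to be orthogonal, express a system of constraints `x = 1`,
`x + y = z`, `x * y = z`. The vectors become rows of `A` or columns of `B` on three shared
coordinates; a pair without an orthogonality constraint has a private coordinate, where the row and
the column may both be nonzero, so that the product can be corrected to zero; the remaining rows and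
columns are free and complete the two matrices to a pair of inverse matrices.
-/

namespace Pool.Agent.Results.MP_49d20d_lc.InvertibilityHard

open Pool.Agent.NPC Pool.Agent.NPC.ER Pool.Agent.NPC.ER.Q325CI

/-- Constrained matrix invertibility over the reals is `∃ℝ`-hard. -/
theorem result : ERHard (lang CMI) := cmi_hard

end Pool.Agent.Results.MP_49d20d_lc.InvertibilityHard
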